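import Pool.Agent.X94.HyB

/-! A symmetric polynomial hypergroup whose dual contains `0`, with `h(2) = 15 / 8 < 2`. -/

namespace Pool.Agent.Results.MP_5cc272_an.SmallSecondWeight

open Polynomial Finset

/-- There is a sequence `c` in `(0, 1)` inducing a polynomial hypergroup with `0` in the dual
space and `h(2) = 15 / 8`, so that the conclusions (a) and (c) fail. -/
theorem result : ∃ (c a : ℕ → ℝ) (P : ℕ → ℝ[X]) (h : ℕ → ℝ),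
    (∀ n, 1 ≤ n → 0 < c n ∧ c n < 1) ∧ a 0 = 1 ∧ (∀ n, 1 ≤ n → a n = 1 - c n) ∧
    P 0 = 1 ∧ P 1 = X ∧
    (∀ n, 1 ≤ n → X * P n = C (a n) * P (n + 1) + C (c n) * P (n - 1)) ∧
    (∀ m n, ∃ g : ℕ → ℝ, (∀ k, 0 ≤ g k) ∧
      P m * P n = ∑ k ∈ range (m + n + 1), C (g k) * P k) ∧
    (∀ n, |(P n).eval 0| ≤ 1) ∧
    (∀ n, h n = ∏ k ∈ Icc 1 n, a (k - 1) / c k) ∧
    h 2 = 15 / 8 := by
  have a0 : X94.Hyp.a 0 = 1 := by rw [X94.Hyp.a, X94.Hyp.c_zero, sub_zero]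
  refine ⟨X94.Hyp.c, X94.Hyp.a, X94.Hyp.P,
    fun n => ∏ k ∈ Icc 1 n, X94.Hyp.a (k - 1) / X94.Hyp.c k,
    fun n hn => ⟨X94.Hyp.c_pos hn, ?_⟩, a0, fun n _ => rfl, rfl, rfl, fun n hn => ?_,
    X94.Hyp.linearization, fun n => (X94.Hyp.eval_zero n).1, fun _ => rfl, ?_⟩
  · have := X94.Hyp.a_pos n
    rw [X94.Hyp.a] at this
    linarith
  · obtain ⟨k, rfl⟩ : ∃ k, n = k + 1 := ⟨n - 1, by omega⟩
    rw [X94.Hyp.X_mul_P]
    rfl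
  · show ∏ k ∈ Icc 1 2, X94.Hyp.a (k - 1) / X94.Hyp.c k = 15 / 8
    rw [show Icc 1 2 = ({1, 2} : Finset ℕ) from rfl, prod_insert (by decide), prod_singleton]
    show X94.Hyp.a 0 / X94.Hyp.c 1 * (X94.Hyp.a 1 / X94.Hyp.c 2) = 15 / 8
    rw [a0, X94.Hyp.a_one, X94.Hyp.c_one, X94.Hyp.c_two]
    norm_num

end Pool.Agent.Results.MP_5cc272_an.SmallSecondWeight
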